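import Pool.Agent.Helper18.EW.Goals3

set_option autoImplicit false

namespace Pool.Agent.Helper82.EW

open Pool.Agent.Helper18.EW

theorem dUpper (n m d W r : ℕ) (hr : r ^ 2 ≤ n) (hr2 : n < (r + 1) ^ 2) (hr3 : 1000000 ≤ r)
    (hm : 1000 ≤ m) (hW : W ≤ 3 * m ^ 2)
    (h : (d + 1) * (d + 2) ≤ n * (m * (m + 1)) + 2 * W) : 50 * d ≤ 51 * (r * m) := by
  by_contra hc
  push Not at hc
  have h0 : (51 * (r * m)) ^ 2 ≤ (50 * d) ^ 2 := Nat.pow_le_pow_left hc.le 2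
  have h1 : d ^ 2 ≤ n * (m * (m + 1)) + 6 * m ^ 2 := by nlinarith
  have h2 : n ≤ r ^ 2 + 2 * r := by nlinarith
  have h3 : n * (m * (m + 1)) ≤ (r ^ 2 + 2 * r) * (m * (m + 1)) := Nat.mul_le_mul_right _ h2
  have e1 : (r ^ 2 * m) * 1000 ≤ (r ^ 2 * m) * m := Nat.mul_le_mul_left _ hm
  have e2 : (r * m ^ 2) * 1000000 ≤ (r * m ^ 2) * r := Nat.mul_le_mul_left _ hr3
  have e3 : (r * m) * 1000000 ≤ (r * m) * r := Nat.mul_le_mul_left _ hr3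
  have e4 : (m ^ 2) * 1000000 ≤ (m ^ 2) * r := Nat.mul_le_mul_left _ hr3
  have e5 : 0 < r * m := by positivity
  nlinarith

theorem dLower (n m d W r : ℕ) (hr : r ^ 2 ≤ n) (hr3 : 1000000 ≤ r)
    (hm : 1000 ≤ m) (hW : W ≤ 3 * m ^ 2)
    (h : n * (m * (m + 1)) ≤ (d + 1) * (d + 2) + 2 * W) : 99 * (r * m) ≤ 100 * d := by
  by_contra hc
  push Not at hc
  have h1 : r ^ 2 * m ^ 2 ≤ (d + 2) ^ 2 + 6 * m ^ 2 := by
    have : r ^ 2 * (m * (m + 1)) ≤ n * (m * (m + 1)) := Nat.mul_le_mul_right _ hr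
    nlinarith
  have e0 : 1000000 * 1000 ≤ r * m := Nat.mul_le_mul hr3 hm
  have h2 : 1000 * (d + 2) ≤ 995 * (r * m) := by omega
  have h3 : (1000 * (d + 2)) ^ 2 ≤ (995 * (r * m)) ^ 2 := Nat.pow_le_pow_left h2 2
  have e4 : (m ^ 2) * 1000000 ≤ (m ^ 2) * r := Nat.mul_le_mul_left _ hr3
  have e5 : (m ^ 2 * r) * 1000000 ≤ (m ^ 2 * r) * r := Nat.mul_le_mul_left _ hr3
  have e6 : 0 < m ^ 2 := by positivity
  nlinarith

/-- The numbers `p`, `l`, `b` with `X = 2^75 Lg³`. -/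
theorem choose (n m d X Lg r : ℕ) (hL : 1 ≤ Lg) (hX : X = 2 ^ 75 * Lg ^ 3)
    (hXn : 2 ^ 10 * X ≤ n) (hn : n ≤ 2 ^ Lg) (hnm : n ≤ 433 * m)
    (hr : r ^ 2 ≤ n) (hr2 : n < (r + 1) ^ 2) (hr3 : 1000000 ≤ r) (hm : 1000 ≤ m)
    (hd1 : 99 * (r * m) ≤ 100 * d) (hd2 : 50 * d ≤ 51 * (r * m)) :
    ∃ p l b : ℕ, 1 ≤ p ∧ p ≤ d ∧ 100 * m ≤ d / p + 1 ∧ 4 * m ^ 2 ≤ l * (p ^ 2 * (d / p + 1)) ∧
    l * (p ^ 2 * (d / p + 1)) ≤ 8 * m ^ 2 ∧ 1 ≤ l ∧ 2 ^ 40 * Lg ≤ b ∧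
    2 ^ 31 * b * Lg ^ 2 * l ≤ m ∧ 22 * m < 2 ^ Lg * l ∧ m ≤ 2 ^ 32 * Lg ^ 2 * l * b ∧
    m ≤ l * (X + 2 * r) := by
  obtain ⟨p, hp⟩ : ∃ p, p = X / r + 1 := ⟨_, rfl⟩
  have hr0 : 0 < r := by omega
  have hm0 : 0 < m := by omega
  have hp1 : X < p * r := by
    have := Nat.lt_div_mul_add hr0 (a := X)
    rw [hp, add_mul, one_mul]
    exact this
  have hp2 : p * r ≤ X + r := by
    have := Nat.div_mul_le_self X r
    rw [hp, add_mul, one_mul]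
    omega
  have hpos : 1 ≤ p := by rw [hp]; exact Nat.succ_pos _
  -- `512 p ≤ r`
  have hp3 : 512 * p ≤ r := by
    have h2 : n ≤ r ^ 2 + 2 * r := by nlinarith
    have h3 : 1024 * (p * r) ≤ (r + 2 + 1024) * r := by nlinarith
    have h4 : 1024 * p ≤ r + 2 + 1024 := by
      by_contra hc
      push Not at hc
      have : (r + 2 + 1024) * r < 1024 * p * r := Nat.mul_lt_mul_of_pos_right hc hr0
      nlinarith
    omega
  have hpm : 100 * m * p ≤ d := by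
    have h1 : 512 * p * m ≤ r * m := Nat.mul_le_mul_right _ hp3
    nlinarith
  have hD : 100 * m ≤ d / p + 1 := by
    have : 100 * m ≤ d / p := (Nat.le_div_iff_mul_le hpos).mpr hpm
    omega
  have hpd : p ≤ d := by
    have : 1 * p ≤ 100 * m * p := Nat.mul_le_mul_right _ (by omega)
    omega
  obtain ⟨B, hB⟩ : ∃ B, B = p ^ 2 * (d / p + 1) := ⟨_, rfl⟩
  have hB1 : p * d < B := by
    have h1 : d < p * (d / p + 1) := by
      have := Nat.lt_mul_div_succ d (show 0 < p by omega)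
      exact this
    have h2 : p * d < p * (p * (d / p + 1)) := Nat.mul_lt_mul_of_pos_left h1 hpos
    rw [hB]
    calc p * d < p * (p * (d / p + 1)) := h2
      _ = p ^ 2 * (d / p + 1) := by ring
  have hB2 : B ≤ p * d + p ^ 2 := by
    have h1 : p * (d / p) ≤ d := Nat.mul_div_le d p
    have h2 : p * (p * (d / p)) ≤ p * d := Nat.mul_le_mul_left _ h1
    rw [hB]
    calc p ^ 2 * (d / p + 1) = p * (p * (d / p)) + p ^ 2 := by ring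
      _ ≤ p * d + p ^ 2 := by omega
  -- `100 B ≤ 103 p r m`
  have hB3 : 100 * B ≤ 103 * (p * (r * m)) := by
    have h1 : p * (50 * d) ≤ p * (51 * (r * m)) := Nat.mul_le_mul_left _ hd2
    have h2 : p * p ≤ p * r := Nat.mul_le_mul_left _ (by omega)
    have h3 : p * r * 1000 ≤ p * r * m := Nat.mul_le_mul_left _ hm
    nlinarith
  -- `490 B ≤ n m`
  have hB4 : 490 * B ≤ n * m := by
    have h1 : 512 * p * (r * m) ≤ r * (r * m) := Nat.mul_le_mul_right _ hp3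
    have h2 : r ^ 2 * m ≤ n * m := Nat.mul_le_mul_right _ hr
    nlinarith
  have hB5 : B ≤ m ^ 2 := by
    have h1 : n * m ≤ 433 * m * m := Nat.mul_le_mul_right _ hnm
    nlinarith
  have hB0 : 0 < B := by omega
  -- `2^74 Lg³ m ≤ B`
  have hB6 : X * m ≤ 2 * B := by
    have h1 : p * (99 * (r * m)) ≤ p * (100 * d) := Nat.mul_le_mul_left _ hd1
    have h2 : X * m ≤ p * r * m := Nat.mul_le_mul_right _ hp1.le
    nlinarith
  obtain ⟨l, hl⟩ : ∃ l, l = 4 * m ^ 2 / B + 1 := ⟨_, rfl⟩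
  have hl1 : 4 * m ^ 2 < l * B := by
    have := Nat.lt_div_mul_add hB0 (a := 4 * m ^ 2)
    rw [hl, add_mul, one_mul]
    exact this
  have hl2 : l * B ≤ 5 * m ^ 2 := by
    have := Nat.div_mul_le_self (4 * m ^ 2) B
    rw [hl, add_mul, one_mul]
    omega
  have hlpos : 1 ≤ l := by rw [hl]; exact Nat.succ_pos _
  have hlm : 2 ^ 71 * Lg ^ 3 * l ≤ m := by
    have h1 : l * (X * m) ≤ l * (2 * B) := Nat.mul_le_mul_left _ hB6
    have h2 : (l * X) * m ≤ (10 * m) * m := by nlinarith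
    have h3 : l * X ≤ 10 * m := Nat.le_of_mul_le_mul_right h2 hm0
    rw [hX] at h3
    have h4 : 16 * (2 ^ 71 * Lg ^ 3 * l) = l * (2 ^ 75 * Lg ^ 3) := by ring
    omega
  obtain ⟨Q, hQ⟩ : ∃ Q, Q = 2 ^ 31 * Lg ^ 2 * l := ⟨_, rfl⟩
  have hQ0 : 0 < Q := by rw [hQ]; positivity
  obtain ⟨b, hb⟩ : ∃ b, b = m / Q := ⟨_, rfl⟩
  have hb1 : 2 ^ 40 * Lg ≤ b := by
    rw [hb, Nat.le_div_iff_mul_le hQ0, hQ]
    calc 2 ^ 40 * Lg * (2 ^ 31 * Lg ^ 2 * l) = 2 ^ 71 * Lg ^ 3 * l := by ring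
      _ ≤ m := hlm
  have hb2 : Q * b ≤ m := by rw [hb]; exact Nat.mul_div_le m Q
  have hb3 : m < Q * (b + 1) := by rw [hb]; exact Nat.lt_mul_div_succ m hQ0
  have hb0 : 1 ≤ b := by
    have : 1 ≤ 2 ^ 40 * Lg := by nlinarith
    omega
  refine ⟨p, l, b, hpos, hpd, hD, ?_, ?_, hlpos, hb1, ?_, ?_, ?_, ?_⟩
  · rw [← hB]; exact hl1.le
  · rw [← hB]; omega
  · calc 2 ^ 31 * b * Lg ^ 2 * l = Q * b := by rw [hQ]; ring
      _ ≤ m := hb2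
  · -- `22 m < 2^Lg l`
    by_contra hc
    push Not at hc
    have h1 : 2 ^ Lg * l * B ≤ 22 * m * B := Nat.mul_le_mul_right _ hc
    have h2 : n * (l * B) ≤ 2 ^ Lg * (l * B) := Nat.mul_le_mul_right _ hn
    have h3 : n * (4 * m ^ 2) ≤ n * (l * B) := Nat.mul_le_mul_left _ hl1.le
    have h4 : m * (490 * B) ≤ m * (n * m) := Nat.mul_le_mul_left _ hB4
    have h5 : 0 < m * B := Nat.mul_pos hm0 hB0
    nlinarith
  · have h1 : Q * (b + 1) ≤ Q * (2 * b) := Nat.mul_le_mul_left _ (by omega)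
    have h2 : Q * (2 * b) = 2 ^ 32 * Lg ^ 2 * l * b := by rw [hQ]; ring
    omega
  · -- `m ≤ l (X + 2 r)`
    have h1 : l * (100 * B) ≤ l * (103 * (p * (r * m))) := Nat.mul_le_mul_left _ hB3
    have h2 : (p * r) * (l * m) ≤ (X + r) * (l * m) := Nat.mul_le_mul_right _ hp2
    have h3 : m * m ≤ (l * (X + 2 * r)) * m := by nlinarith
    exact Nat.le_of_mul_le_mul_right h3 hm0

/-- **NA.** -/
theorem goalNA : GoalNA := by
  intro n m d W Lg hL hLn hn hnm hW heq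
  have hL3 : 1 ≤ Lg ^ 3 := Nat.one_le_pow _ _ hL
  have hn1 : 2 ^ 85 ≤ n := by
    calc 2 ^ 85 = 2 ^ 85 * 1 := by ring
      _ ≤ 2 ^ 85 * Lg ^ 3 := Nat.mul_le_mul_left _ hL3
      _ ≤ n := hLn
  have hr : (Nat.sqrt n) ^ 2 ≤ n := Nat.sqrt_le' n
  have hr2 : n < (Nat.sqrt n + 1) ^ 2 := Nat.lt_succ_sqrt' n
  have hr3 : 1000000 ≤ Nat.sqrt n := by
    rw [Nat.le_sqrt']
    refine le_trans ?_ hn1
    norm_num
  have hm : 1000 ≤ m := by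
    have : (2 : ℕ) ^ 85 ≤ 433 * m := le_trans hn1 hnm
    norm_num at this
    omega
  have h1 : (d + 1) * (d + 2) ≤ n * (m * (m + 1)) + 2 * W := by omega
  have h2 : n * (m * (m + 1)) ≤ (d + 1) * (d + 2) + 2 * W := by omega
  have hd2 := dUpper n m d W (Nat.sqrt n) hr hr2 hr3 hm hW h1
  have hd1 := dLower n m d W (Nat.sqrt n) hr hr3 hm hW h2
  refine choose n m d (2 ^ 75 * Lg ^ 3) Lg (Nat.sqrt n) hL rfl ?_ hn hnm hr hr2 hr3 hm hd1 hd2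
  calc 2 ^ 10 * (2 ^ 75 * Lg ^ 3) = 2 ^ 85 * Lg ^ 3 := by ring
    _ ≤ n := hLn

end Pool.Agent.Helper82.EW
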