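import Mathlib
import Pool.Agent.Helper18.EW.Goals4

set_option autoImplicit false

namespace Pool.Agent.Helper82.EW

open Pool.Agent.Helper18.EW

theorem pow4_le (L : ℕ) (hL : 10 ≤ L) : L ^ 4 ≤ 10 * 2 ^ L := by
  induction L, hL using Nat.le_induction with
  | base => norm_num
  | succ k hk ih =>
    have h1 : (k + 1) ^ 4 ≤ 2 * k ^ 4 := by
      have e : (k + 1) ^ 4 = k ^ 4 + (4 * k ^ 3 + 6 * k ^ 2 + 4 * k + 1) := by ring
      have a1 : 10 * k ^ 3 ≤ k ^ 4 := by
        have : k ^ 4 = k * k ^ 3 := by ring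
        rw [this]; exact Nat.mul_le_mul_right _ hk
      have a2 : 10 * k ^ 2 ≤ k ^ 3 := by
        have : k ^ 3 = k * k ^ 2 := by ring
        rw [this]; exact Nat.mul_le_mul_right _ hk
      have a3 : 10 * k ≤ k ^ 2 := by
        have : k ^ 2 = k * k := by ring
        rw [this]; exact Nat.mul_le_mul_right _ hk
      rw [e]; omega
    calc (k + 1) ^ 4 ≤ 2 * k ^ 4 := h1
      _ ≤ 2 * (10 * 2 ^ k) := Nat.mul_le_mul_left _ ih
      _ = 10 * 2 ^ (k + 1) := by rw [pow_succ]; ring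

theorem le_two_pow {a k e : ℕ} (h : a ≤ 2 ^ k) (hk : k ≤ e) : a ≤ 2 ^ e :=
  le_trans h (Nat.pow_le_pow_right (by norm_num) hk)

theorem two_split {e a b : ℕ} (h : e = a + b) : (2 : ℕ) ^ e = 2 ^ a * 2 ^ b := by
  rw [h, pow_add]

theorem goalND : GoalND := by
  intro n m Lg j hm hLg hn hnm hj
  have hL10 : 10 ≤ Lg := by omega
  set r := Nat.sqrt n with hr
  have hr1 : r * r ≤ n := Nat.sqrt_le n
  have hr2 : n ≤ r * r + r + r := Nat.sqrt_le_add n
  have hLg3 : 1 ≤ Lg ^ 3 := Nat.one_le_pow _ _ (by omega)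
  have hLg2 : 1 ≤ Lg ^ 2 := Nat.one_le_pow _ _ (by omega)
  have hn400 : 2 ^ 400 ≤ n := le_trans (Nat.le_mul_of_pos_right _ hLg3) hn
  have hr200 : 2 ^ 200 ≤ r := by
    rw [hr, Nat.le_sqrt, ← two_split (e := 400) (a := 200) (b := 200) (by norm_num)]
    exact hn400
  -- `r ≥ 2 ^ 199 * Lg`
  have hrL : 2 ^ 199 * Lg ≤ r := by
    by_contra hcon
    push Not at hcon
    have h1 : r * r ≤ (2 ^ 199 * Lg) * (2 ^ 199 * Lg) := Nat.mul_le_mul hcon.le hcon.le
    have h2 : (2 ^ 199 * Lg) * (2 ^ 199 * Lg) = 2 ^ 398 * Lg ^ 2 := by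
      rw [two_split (e := 398) (a := 199) (b := 199) (by norm_num)]; ring
    have h3 : 2 * r ≤ r * r := Nat.mul_le_mul_right _ (le_trans (by norm_num) hr200)
    have h4 : n ≤ 2 ^ 399 * Lg ^ 2 := by
      calc n ≤ r * r + r + r := hr2
        _ ≤ 2 * (r * r) := by omega
        _ ≤ 2 * (2 ^ 398 * Lg ^ 2) := by rw [← h2]; exact Nat.mul_le_mul_left _ h1
        _ = 2 ^ 399 * Lg ^ 2 := by
          rw [two_split (e := 399) (a := 1) (b := 398) (by norm_num)]; ring
    have h5 : 2 ^ 400 * Lg ^ 2 ≤ n := by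
      refine le_trans ?_ hn
      exact Nat.mul_le_mul_left _ (Nat.pow_le_pow_right (by omega) (by norm_num))
    have h6 : 2 ^ 400 * Lg ^ 2 = 2 * (2 ^ 399 * Lg ^ 2) := by
      rw [two_split (e := 400) (a := 1) (b := 399) (by norm_num)]; ring
    have h7 : 1 ≤ 2 ^ 399 * Lg ^ 2 := Nat.mul_pos (by positivity) hLg2
    omega
  have hj1 : 1000 * j ≤ r := by rw [hj]; exact Nat.mul_div_le r 1000
  have hj2 : r ≤ 1001 * j := by
    have h1 : r < 1000 * j + 1000 := by rw [hj]; omega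
    have h2 : 1000 ≤ j := by
      rw [hj, Nat.le_div_iff_mul_le (by norm_num)]
      exact le_trans (by norm_num) hr200
    omega
  have hjL : 2 ^ 189 * Lg ≤ j := by
    have h1 : 2 ^ 199 * Lg ≤ 1024 * j := le_trans hrL (le_trans hj2 (by omega))
    have h2 : 2 ^ 199 * Lg = 1024 * (2 ^ 189 * Lg) := by ring
    rw [h2] at h1
    exact Nat.le_of_mul_le_mul_left h1 (by norm_num)
  have hjpos : 1 ≤ j := le_trans (Nat.mul_pos (by positivity) (by omega)) hjL
  have hm391 : 2 ^ 391 * Lg ^ 3 ≤ m := by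
    have h1 : 2 ^ 400 * Lg ^ 3 ≤ 512 * m := le_trans hn (le_trans hnm (by omega))
    have h2 : 2 ^ 400 * Lg ^ 3 = 512 * (2 ^ 391 * Lg ^ 3) := by
      rw [two_split (e := 400) (a := 9) (b := 391) (by norm_num)]; ring
    rw [h2] at h1
    exact Nat.le_of_mul_le_mul_left h1 (by norm_num)
  have hmlt : m < 2 ^ (Nat.log 2 m + 1) := Nat.lt_pow_succ_log_self (by norm_num) m
  have hmge : 2 ^ Nat.log 2 m ≤ m := Nat.pow_log_le_self 2 (by omega)
  have hLe : 2 ^ Lg = 512 * 2 ^ (Nat.log 2 m + 1) := by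
    rw [hLg, show Nat.log 2 m + 10 = 9 + (Nat.log 2 m + 1) by omega, pow_add]; norm_num
  have hLe' : 2 ^ Lg = 1024 * 2 ^ (Nat.log 2 m) := by
    rw [hLg, pow_add]; norm_num [mul_comm]
  have hL4 : Lg ^ 4 ≤ 2 ^ 14 * m := by
    calc Lg ^ 4 ≤ 10 * 2 ^ Lg := pow4_le Lg hL10
      _ = 10 * (1024 * 2 ^ (Nat.log 2 m)) := by rw [hLe']
      _ ≤ 10 * (1024 * m) := by
        exact Nat.mul_le_mul_left _ (Nat.mul_le_mul_left _ hmge)
      _ ≤ 2 ^ 14 * m := by norm_num; omega
  have hj6 : 1000000 * (j * j) ≤ n := by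
    calc 1000000 * (j * j) = (1000 * j) * (1000 * j) := by ring
      _ ≤ r * r := Nat.mul_le_mul hj1 hj1
      _ ≤ n := hr1
  have hjm : 12 * j ≤ m := by
    have h1 : 1000000 * (j * j) ≤ 433 * m := le_trans hj6 hnm
    have h2 : j ≤ j * j := Nat.le_mul_self j
    omega
  refine ⟨hjpos, ?_, ?_, ?_, ?_, ?_, ?_, ?_, ?_⟩
  · rw [hLe]; omega
  · rw [hLe]; omega
  · -- `2 ^ 85 Lg ^ 3 ≤ 4 j ^ 2`
    have h1 : r * r ≤ 1002001 * (j * j) := by
      calc r * r ≤ (1001 * j) * (1001 * j) := Nat.mul_le_mul hj2 hj2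
        _ = 1002001 * (j * j) := by ring
    have h3 : 2 * r ≤ r * r := Nat.mul_le_mul_right _ (le_trans (by norm_num) hr200)
    have h4 : 2 ^ 400 * Lg ^ 3 ≤ 2004002 * (j * j) := by
      refine le_trans hn ?_
      omega
    have h5 : 2 ^ 400 * Lg ^ 3 = 2 ^ 315 * (2 ^ 85 * Lg ^ 3) := by
      rw [two_split (e := 400) (a := 315) (b := 85) (by norm_num)]; ring
    have h6 : 2004002 * (2 ^ 85 * Lg ^ 3) ≤ 2 ^ 400 * Lg ^ 3 := by
      rw [h5]
      exact Nat.mul_le_mul_right _ (le_two_pow (k := 30) (by norm_num) (by norm_num))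
    have h7 : 2 ^ 85 * Lg ^ 3 ≤ j * j :=
      Nat.le_of_mul_le_mul_left (le_trans h6 h4) (by norm_num)
    rw [pow_two j]; omega
  · rw [pow_two]; omega
  · -- the main one
    have e : 8 * (2 ^ 65 * Lg ^ 2 * (2 ^ 75 * Lg ^ 3 + 2 * r)) =
        2 ^ 143 * Lg ^ 5 + 2 ^ 69 * Lg ^ 2 * r := by ring
    rw [e]
    have h1 : 2 ^ 143 * Lg ^ 5 ≤ j * m := by
      have g1 : (2 ^ 189 * Lg) * Lg ^ 4 ≤ j * (2 ^ 14 * m) := Nat.mul_le_mul hjL hL4
      have g2 : (2 ^ 189 * Lg) * Lg ^ 4 = 2 ^ 14 * (2 ^ 175 * Lg ^ 5) := by ring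
      have g3 : j * (2 ^ 14 * m) = 2 ^ 14 * (j * m) := by ring
      rw [g2, g3] at g1
      have g4 := Nat.le_of_mul_le_mul_left g1 (by norm_num)
      refine le_trans ?_ g4
      exact Nat.mul_le_mul_right _ (by norm_num)
    have h2 : 2 ^ 69 * Lg ^ 2 * r ≤ j * m := by
      calc 2 ^ 69 * Lg ^ 2 * r ≤ 2 ^ 69 * Lg ^ 2 * (1001 * j) := Nat.mul_le_mul_left _ hj2
        _ = j * (1001 * 2 ^ 69 * Lg ^ 2) := by ring
        _ ≤ j * m := by
          apply Nat.mul_le_mul_left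
          refine le_trans ?_ hm391
          exact Nat.mul_le_mul (le_two_pow (k := 100) (by norm_num) (by norm_num))
            (Nat.pow_le_pow_right (by omega) (by norm_num))
    calc 2 ^ 143 * Lg ^ 5 + 2 ^ 69 * Lg ^ 2 * r ≤ j * m + j * m := Nat.add_le_add h1 h2
      _ ≤ j * (2 * m + 1) := by nlinarith
  · calc 4 * (j * (2 * m + 1)) ≤ 4 * (j * (3 * m)) := by
          apply Nat.mul_le_mul_left; apply Nat.mul_le_mul_left; omega
      _ = (12 * j) * m := by ring
      _ ≤ m * m := Nat.mul_le_mul_right _ hjm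
      _ = m ^ 2 := by ring
  · omega
  · intro d hd
    by_contra hcon
    push Not at hcon
    have c1 : (2 : ℤ) * ((d + 2).choose 2 : ℤ) = (d + 1) * (d + 2) := by
      have := Nat.triangle_succ (d + 1)
      have h2 : (d + 2).choose 2 * 2 = (d + 2) * (d + 1) := by
        rw [Nat.choose_two_right]
        have : 2 ∣ (d + 2) * (d + 2 - 1) := (Nat.even_mul_pred_self (d + 2)).two_dvd
        have := Nat.div_mul_cancel this
        simpa using this
      have h3 : (((d + 2).choose 2 * 2 : ℕ) : ℤ) = ((d + 2) * (d + 1) : ℕ) := by rw [h2]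
      push_cast at h3
      linarith
    have c2 : (2 : ℤ) * ((m + 1).choose 2 : ℤ) = (m + 1) * m := by
      have h2 : (m + 1).choose 2 * 2 = (m + 1) * m := by
        rw [Nat.choose_two_right]
        have : 2 ∣ (m + 1) * (m + 1 - 1) := (Nat.even_mul_pred_self (m + 1)).two_dvd
        have := Nat.div_mul_cancel this
        simpa using this
      have h3 : (((m + 1).choose 2 * 2 : ℕ) : ℤ) = ((m + 1) * m : ℕ) := by rw [h2]
      push_cast at h3
      linarith
    have hd1 := (abs_lt.mp hd).1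
    have key : (n : ℤ) * ((m + 1) * m) - 6 * (m : ℤ) ^ 2 < (d + 1) * (d + 2) := by
      rw [← c1, ← c2]; linarith
    -- the upper bound
    have hD : 1000 * (d + 1) ≤ 606 * (r * m) := by
      have h1 : d + 1 ≤ 202 * (j * (2 * m + 1)) := hcon
      have h2 : 202 * (j * (2 * m + 1)) ≤ 606 * (j * m) := by
        calc 202 * (j * (2 * m + 1)) ≤ 202 * (j * (3 * m)) := by
              apply Nat.mul_le_mul_left; apply Nat.mul_le_mul_left; omega
          _ = 606 * (j * m) := by ring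
      calc 1000 * (d + 1) ≤ 1000 * (606 * (j * m)) := Nat.mul_le_mul_left _ (le_trans h1 h2)
        _ = 606 * (1000 * j * m) := by ring
        _ ≤ 606 * (r * m) := by
          apply Nat.mul_le_mul_left; exact Nat.mul_le_mul_right _ hj1
    have hX : 2 ^ 200 ≤ r * m := le_trans hr200 (Nat.le_mul_of_pos_right _ hm)
    have hX2 : (r * m) * (r * m) ≤ n * (m * m) := by
      calc (r * m) * (r * m) = (r * r) * (m * m) := by ring
        _ ≤ n * (m * m) := Nat.mul_le_mul_right _ hr1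
    have hXX : 606000 * (r * m) ≤ (r * m) * (r * m) :=
      Nat.mul_le_mul_right _ (le_trans (by norm_num) hX)
    have hup : 1000000 * ((d + 1) * (d + 2)) ≤ 367237 * (n * (m * m)) := by
      calc 1000000 * ((d + 1) * (d + 2)) = (1000 * (d + 1)) * (1000 * (d + 1) + 1000) := by ring
        _ ≤ (606 * (r * m)) * (606 * (r * m) + 1000) :=
          Nat.mul_le_mul hD (Nat.add_le_add_right hD _)
        _ = 367236 * ((r * m) * (r * m)) + 606000 * (r * m) := by ring
        _ ≤ 367237 * ((r * m) * (r * m)) := by omega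
        _ ≤ 367237 * (n * (m * m)) := Nat.mul_le_mul_left _ hX2
    have hupZ : (1000000 : ℤ) * ((d + 1) * (d + 2)) ≤ 367237 * (n * (m * m)) := by
      exact_mod_cast hup
    have hn12 : 12 * (m * m) ≤ n * (m * m) :=
      Nat.mul_le_mul_right _ (le_trans (le_two_pow (k := 4) (by norm_num) (by norm_num)) hn400)
    have hn12Z : (12 : ℤ) * (m * m) ≤ n * (m * m) := by exact_mod_cast hn12
    have hpos : (0 : ℤ) ≤ n * m := by positivity
    have hmm : (0 : ℤ) < (m : ℤ) * m := by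
      have : (0 : ℤ) < m := by exact_mod_cast hm
      positivity
    nlinarith

end Pool.Agent.Helper82.EW
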